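import Pool.Agent.W2helper9.OP.Stm

/-! # Project OP, piece GR: usual good reduction implies good reduction at `A`. -/

set_option autoImplicit false

open MvPolynomial IsDedekindDomain NumberField Filter

namespace Pool.Agent.W2helper71.OPGR

open Pool.Agent.W2helper9.OP
open Pool.Agent.Helper819.Dyn (Tuple IsEnd)

noncomputable section

variable {K : Type} [Field K] [NumberField K]

/-- the ring homomorphism from the valuation ring of `v` to `A` -/
def phi (v : HeightOneSpectrum (𝓞 K)) (A : ValuationSubring (AlgebraicClosure K)) (h : Over v A) :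
    (v.valuation K).valuationSubring →+* A where
  toFun x := ⟨algebraMap K (AlgebraicClosure K) (x : K), (h x).2 x.2⟩
  map_one' := by ext; simp
  map_mul' x y := by ext; simp
  map_zero' := by ext; simp
  map_add' x y := by ext; simp

lemma phi_coe (v : HeightOneSpectrum (𝓞 K)) (A : ValuationSubring (AlgebraicClosure K))
    (h : Over v A) (x : (v.valuation K).valuationSubring) :
    (phi v A h x : AlgebraicClosure K) = algebraMap K (AlgebraicClosure K) (x : K) := rfl

lemma phi_local (v : HeightOneSpectrum (𝓞 K)) (A : ValuationSubring (AlgebraicClosure K))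
    (h : Over v A) : IsLocalHom (phi v A h) := by
  constructor
  intro x hx
  obtain ⟨y, hy⟩ := isUnit_iff_exists_inv.1 hx
  have hy' : algebraMap K (AlgebraicClosure K) (x : K) * (y : AlgebraicClosure K) = 1 := by
    have := congrArg (fun t : A => (t : AlgebraicClosure K)) hy
    simpa [phi_coe] using this
  have hx0 : (x : K) ≠ 0 := by
    intro h0
    rw [h0] at hy'
    simp at hy'
  have hyx : (y : AlgebraicClosure K) = algebraMap K (AlgebraicClosure K) ((x : K)⁻¹) := by
    rw [map_inv₀]
    exact eq_inv_of_mul_eq_one_right hy'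
  have hm : v.valuation K ((x : K)⁻¹) ≤ 1 := by
    rw [← h, ← hyx]
    exact y.2
  refine isUnit_iff_exists_inv.2 ⟨⟨(x : K)⁻¹, hm⟩, ?_⟩
  ext
  simp [hx0]

/-- every element of `A` is a root of a polynomial over the valuation ring of `v` which has a
coefficient `1` -/
lemma exists_poly (v : HeightOneSpectrum (𝓞 K)) (A : ValuationSubring (AlgebraicClosure K))
    (h : Over v A) (z : A) : ∃ (P : Polynomial (v.valuation K).valuationSubring) (i : ℕ),
      P.coeff i = 1 ∧ P.eval₂ (phi v A h) z = 0 := by
  obtain ⟨p, hp0, hp⟩ := Algebra.IsAlgebraic.isAlgebraic (R := K) (z : AlgebraicClosure K)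
  have hne : p.support.Nonempty := Polynomial.support_nonempty.2 hp0
  obtain ⟨i, hi, hmax⟩ := Finset.exists_max_image p.support (fun i => v.valuation K (p.coeff i)) hne
  have hi0 : p.coeff i ≠ 0 := Polynomial.mem_support_iff.1 hi
  have hle : ∀ j, v.valuation K (p.coeff j / p.coeff i) ≤ 1 := by
    intro j
    by_cases hj : j ∈ p.support
    · rw [map_div₀]
      have h0 : v.valuation K (p.coeff i) ≠ 0 := by simpa using hi0
      exact div_le_one_of_le₀ (hmax j hj) zero_le'
    · have : p.coeff j = 0 := by simpa using hj
      simp [this]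
  let P : Polynomial (v.valuation K).valuationSubring :=
    ∑ j ∈ p.support, Polynomial.monomial j (⟨p.coeff j / p.coeff i, hle j⟩)
  have hPc : P.coeff i = 1 := by
    simp only [P, Polynomial.finset_sum_coeff, Polynomial.coeff_monomial]
    rw [Finset.sum_ite_eq' p.support i]
    rw [if_pos hi]
    ext
    simp [hi0]
  refine ⟨P, i, hPc, ?_⟩
  ext
  simp only [P, Polynomial.eval₂_finset_sum, Polynomial.eval₂_monomial]
  have h1 : (((∑ j ∈ p.support, (phi v A h ⟨p.coeff j / p.coeff i, hle j⟩) * z ^ j : A)) :
      AlgebraicClosure K) = ∑ j ∈ p.support,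
        algebraMap K (AlgebraicClosure K) (p.coeff j / p.coeff i) * (z : AlgebraicClosure K) ^ j := by
    change A.subtype _ = _
    rw [map_sum]
    refine Finset.sum_congr rfl fun j _ => ?_
    rw [map_mul, map_pow]
    rfl
  rw [h1]
  have h2 : ∑ j ∈ p.support,
      algebraMap K (AlgebraicClosure K) (p.coeff j / p.coeff i) * (z : AlgebraicClosure K) ^ j
      = algebraMap K (AlgebraicClosure K) (p.coeff i)⁻¹ * Polynomial.aeval (z : AlgebraicClosure K) p := by
    rw [Polynomial.aeval_def, Polynomial.eval₂_eq_sum, Polynomial.sum, Finset.mul_sum]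
    refine Finset.sum_congr rfl fun j _ => ?_
    rw [div_eq_mul_inv, map_mul]
    ring
  rw [h2, hp]
  simp

theorem t_GR : P_GR := by
  intro K _ _ N d F v hG A hA
  obtain ⟨c, G, hGF, hhom, hend⟩ := hG
  haveI := phi_local v A hA
  let V := (v.valuation K).valuationSubring
  let k := IsLocalRing.ResidueField V
  let kA := IsLocalRing.ResidueField A
  let ψ : k →+* kA := IsLocalRing.ResidueField.map (phi v A hA)
  letI : Algebra k kA := ψ.toAlgebra
  have hres : ∀ x : V, ψ (IsLocalRing.residue V x) = IsLocalRing.residue A (phi v A hA x) :=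
    fun x => rfl
  haveI hint : Algebra.IsAlgebraic k kA := by
    constructor
    intro y
    obtain ⟨z, rfl⟩ := IsLocalRing.residue_surjective y
    obtain ⟨P, i, hPi, hP⟩ := exists_poly v A hA z
    refine ⟨P.map (IsLocalRing.residue V), ?_, ?_⟩
    · intro h0
      have := congrArg (fun q => Polynomial.coeff q i) h0
      simp [hPi] at this
    · rw [Polynomial.aeval_def, Polynomial.eval₂_map]
      have h1 : (algebraMap k kA).comp (IsLocalRing.residue V)
          = (IsLocalRing.residue A).comp (phi v A hA) := by
        ext x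
        exact hres x
      rw [h1, ← Polynomial.hom_eval₂, hP, map_zero]
  let e : kA →ₐ[k] AlgebraicClosure k := IsAlgClosed.lift
  have hcoef : ∀ i m, algebraMap K (AlgebraicClosure K) ((c : K) * coeff m (F i)) ∈ A := by
    intro i m
    have h1 := congrArg (coeff m) (hGF i)
    rw [coeff_map, coeff_C_mul] at h1
    rw [← h1, hA]
    exact (coeff m (G i)).2
  refine ⟨c, c.ne_zero, hcoef, ?_⟩
  intro x hx ⟨j, hj⟩
  let xA : Fin (N + 1) → A := fun i => ⟨x i, hx i⟩
  have hval : ∀ i, algebraMap K (AlgebraicClosure K) (c : K) * mp F x i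
      = ((eval₂ (phi v A hA) xA (G i) : A) : AlgebraicClosure K) := by
    intro i
    have h1 : algebraMap K (AlgebraicClosure K) (c : K) * mp F x i
        = aeval x (C (c : K) * F i) := by
      rw [map_mul, aeval_C]
      rfl
    rw [h1, ← hGF i, aeval_def, eval₂_map]
    have h2 : ((eval₂ (phi v A hA) xA (G i) : A) : AlgebraicClosure K)
        = A.subtype (eval₂ (phi v A hA) xA (G i)) := rfl
    rw [h2, hom_eval₂]
    rfl
  by_contra hcon
  push Not at hcon
  have hzero : ∀ i, IsLocalRing.residue A (eval₂ (phi v A hA) xA (G i)) = 0 := by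
    intro i
    rw [IsLocalRing.residue_eq_zero_iff, IsLocalRing.mem_maximalIdeal, mem_nonunits_iff,
      ValuationSubring.valuation_eq_one_iff]
    rw [← hval i]
    exact hcon i
  have hz : (fun i => e (IsLocalRing.residue A (xA i))) = 0 := by
    apply hend
    intro i
    have h1 := congrArg e (hzero i)
    rw [map_zero] at h1
    rw [← h1]
    rw [aeval_def, eval₂_map]
    have h3 : e (IsLocalRing.residue A (eval₂ (phi v A hA) xA (G i)))
        = ((e : kA →+* AlgebraicClosure k).comp (IsLocalRing.residue A))
            (eval₂ (phi v A hA) xA (G i)) := rfl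
    rw [h3, hom_eval₂]
    congr 1
    ext y
    change algebraMap k (AlgebraicClosure k) (IsLocalRing.residue V y)
      = e (IsLocalRing.residue A (phi v A hA y))
    rw [← hres, ← e.commutes]
    rfl
  have hj0 : IsLocalRing.residue A (xA j) = 0 := by
    have h1 : e (IsLocalRing.residue A (xA j)) = 0 := congrFun hz j
    exact (map_eq_zero e).1 h1
  rw [IsLocalRing.residue_eq_zero_iff, IsLocalRing.mem_maximalIdeal, mem_nonunits_iff,
    ValuationSubring.valuation_eq_one_iff] at hj0
  exact hj0 hj

end

end Pool.Agent.W2helper71.OPGR
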